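import Pool.Agent.Helper27_Sob.Statements

/-!
# A8: the squeezing theorem (assembly of part A)
-/

set_option autoImplicit false

open Set Filter Topology Metric MeasureTheory
open scoped ENNReal NNReal

namespace Pool.Agent.Helper51Sob

open Pool.Agent.Helper27Sob

instance : Countable Cell := by
  have : Function.Injective (fun F : Cell => (F.i, F.q)) := by
    rintro ⟨i, q⟩ ⟨i', q'⟩ h
    simp only [Prod.mk.injEq] at h
    rw [h.1, h.2]
  exact this.countable

theorem len_le_one (F : Cell) : F.len ≤ 1 := by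
  unfold Cell.len ell
  exact pow_le_one₀ (by norm_num) (by norm_num)

theorem len_pos (F : Cell) : 0 < F.len := by
  unfold Cell.len ell
  positivity

theorem center_mem (F : Cell) : F.center ∈ F.carrier := by
  intro j
  rw [sub_self, abs_zero]
  have := len_pos F
  split_ifs <;> linarith

theorem dist_le_of_mem {F : Cell} {x y : E} (hx : x ∈ F.carrier) (hy : y ∈ F.carrier) :
    ‖x - y‖ ≤ 1 := by
  rw [pi_norm_le_iff_of_nonneg zero_le_one]
  intro j
  have h1 := hx j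
  have h2 := hy j
  have h3 := len_pos F
  have h4 := len_le_one F
  have h5 : (if Odd (F.q j) then F.len / 2 else 0) ≤ F.len / 2 := by
    split_ifs <;> linarith
  rw [Pi.sub_apply, Real.norm_eq_abs]
  rw [abs_le] at *
  constructor <;> linarith [h1.1, h1.2, h2.1, h2.2]

section weights
variable (C : Set E) (R : ℝ) (e : (Fin 6 → Cell) → ℝ)
  (hfin : ∀ G : Cell, {F : Fin 6 → Cell | IsFlag C F ∧ ∃ k, F k = G}.Finite)

open Classical in
/-- the weights of the cells -/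
noncomputable def eps (F : Cell) : ℝ :=
  if F.dim ≤ 2 ∨ ¬ F.carrier ⊆ closedBall 0 R then 1 else
    ∏ Φ ∈ (hfin F).toFinset, min 1 (e Φ)

variable {C R e hfin}

theorem eps_pos (he : ∀ Φ, 0 < e Φ) (F : Cell) : 0 < eps C R e hfin F := by
  unfold eps
  split_ifs
  · exact one_pos
  · exact Finset.prod_pos fun Φ _ => lt_min one_pos (he Φ)

theorem eps_le_one (he : ∀ Φ, 0 < e Φ) (F : Cell) : eps C R e hfin F ≤ 1 := by
  unfold eps
  split_ifs
  · exact le_rfl
  · exact Finset.prod_le_one (fun Φ _ => (lt_min one_pos (he Φ)).le) fun Φ _ => min_le_left _ _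

theorem eps_le (he : ∀ Φ, 0 < e Φ) {Φ : Fin 6 → Cell} (hΦ : IsFlag C Φ) {k : Fin 6}
    (hk : 2 < (Φ k).dim) (hR : (Φ k).carrier ⊆ closedBall 0 R) :
    eps C R e hfin (Φ k) ≤ e Φ := by
  unfold eps
  rw [if_neg (by push Not; exact ⟨hk, hR⟩)]
  have hmem : Φ ∈ (hfin (Φ k)).toFinset := by
    rw [Set.Finite.mem_toFinset]
    exact ⟨hΦ, k, rfl⟩
  classical
  rw [← Finset.mul_prod_erase _ _ hmem]
  calc _ ≤ min 1 (e Φ) * 1 := by
        apply mul_le_mul_of_nonneg_left _ (lt_min one_pos (he Φ)).le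
        exact Finset.prod_le_one (fun Φ _ => (lt_min one_pos (he Φ)).le)
          fun Φ _ => min_le_left _ _
    _ ≤ e Φ := by rw [mul_one]; exact min_le_right _ _

theorem eps_eq_one_of_dim {F : Cell} (h : F.dim ≤ 2) : eps C R e hfin F = 1 := by
  unfold eps
  rw [if_pos (Or.inl h)]

theorem eps_eq_one_of_far {F : Cell} (h : ¬ F.carrier ⊆ closedBall 0 R) :
    eps C R e hfin F = 1 := by
  unfold eps
  rw [if_pos (Or.inr h)]

end weights

theorem a8 (h3 : A3Statement) (h4 : A4Statement) (h5 : A5Statement)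
    (h7 : A7Statement) : SqueezeStatement := by
  classical
  obtain ⟨A, hA⟩ := h7
  intro C R G hC hCR hG hTan
  obtain ⟨M, hM, hTan⟩ := hTan
  have hCc : IsClosed C := hC.isClosed
  obtain ⟨h5a, h5b, h5c⟩ := h5 C hCc
  obtain ⟨h3a, h3b, h3c, h3d⟩ := h3 C hCc
  -- the errors
  obtain ⟨η, hη0, hηs⟩ := ENNReal.exists_pos_sum_of_countable' (one_ne_zero) (Fin 6 → Cell)
  -- good flags
  let Good : (Fin 6 → Cell) → Prop := fun Φ => IsFlag C Φ ∧ (Φ 5).carrier ⊆ closedBall 0 R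
  have hgood2 : ∀ Φ, Good Φ → Φ 2 ∈ K2 C R := by
    intro Φ hΦ
    refine ⟨(hΦ.1.1 2).1, (hΦ.1.1 2).2, (hΦ.1.2 2 5 (by decide)).trans hΦ.2⟩
  have hex : ∀ Φ, ∃ e : ℝ, 0 < e ∧ (Good Φ → ∀ ε : Fin 6 → ℝ, (∀ k, 0 < ε k ∧ ε k ≤ 1) →
      ε 0 = 1 → ε 1 = 1 → ε 2 = 1 → ε 3 ≤ e → ε 4 ≤ e → ε 5 ≤ e → ∀ s : E → E,
        (∀ x ∈ openSimplex Φ, s x =
          (∑ k, ε k * wt Φ x k)⁻¹ • ∑ k, (ε k * wt Φ x k) • (Φ k).center) →
        ∫⁻ x in openSimplex Φ, ‖fderiv ℝ (G ∘ s) x‖ₑ ^ 2 ≤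
          A * (∫⁻ y in (Φ 2).thick, M ((Φ 2).proj y) ^ 2) + η Φ) := by
    intro Φ
    by_cases hΦ : Good Φ
    · obtain ⟨e, he, h⟩ := hA C hCc Φ hΦ.1 G hG M hM (hTan (Φ 2) (hgood2 Φ hΦ)).1 (η Φ)
        (hη0 Φ).ne'
      exact ⟨e, he, fun _ => h⟩
    · exact ⟨1, one_pos, fun h => absurd h hΦ⟩
  choose e he hprop using hex
  set ε : Cell → ℝ := eps C R e h5c with hε
  have hεpos : ∀ F, 0 < ε F := eps_pos he
  obtain ⟨s, hs, hsl, hscell⟩ := h4 C hCc ε hεpos
  refine ⟨s, ?_, hsl, ?_, ?_⟩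
  · intro x hx
    rw [hs, Helper27Sob.sq, if_pos hx]
  · intro x hx
    rw [hs]
    by_cases hxC : x ∈ C
    · rw [Helper27Sob.sq, if_pos hxC]
    · rw [Helper27Sob.sq, if_neg hxC]
      have hw := h3a x hxC
      have hlam : IsBary C (lam C x) x := by
        rw [lam, dif_pos hw]
        exact hw.choose_spec
      obtain ⟨_, T, hT, hxT, hsub⟩ := h3c x _ hlam
      have hone : ∀ F ∈ (lam C x).support, ε F = 1 := by
        intro F hF
        apply eps_eq_one_of_far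
        intro hball
        have hxc : x ∈ T.carrier := by
          intro j
          have := hxT j
          split_ifs at this ⊢ with hj
          · exact this.le
          · rw [this, sub_self, abs_zero]
        have h1 := dist_le_of_mem hxc (hsub F hF (center_mem F))
        have h2 := hball (center_mem F)
        rw [mem_closedBall_zero_iff] at h2
        have h3 := norm_sub_norm_le x F.center
        linarith
      have e1 : ((lam C x).sum fun F a => ε F * a) = 1 := by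
        rw [← hlam.2.2.1]
        refine Finset.sum_congr rfl fun F hF => ?_
        change ε F * _ = _
        rw [hone F hF, one_mul]
      have e2 : ((lam C x).sum fun F a => (ε F * a) • F.center) = x := by
        conv_rhs => rw [← hlam.2.2.2]
        refine Finset.sum_congr rfl fun F hF => ?_
        change (ε F * _) • _ = _
        rw [hone F hF, one_mul]
      rw [e1, e2, inv_one, one_smul]
  · -- the energy
    let I := {Φ : Fin 6 → Cell // Good Φ}
    have hcov : (closedBall 0 (R - 1) \ C : Set E) ≤ᵐ[volume] ⋃ Φ : I, openSimplex Φ.1 := by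
      filter_upwards [h3d] with x hx hxm
      obtain ⟨Φ, hΦ, hxΦ⟩ := hx hxm.2
      refine mem_iUnion.2 ⟨⟨Φ, hΦ, ?_⟩, hxΦ⟩
      intro y hy
      have hx5 := (h5a Φ hΦ).2.1 hxΦ
      have h1 := dist_le_of_mem hy hx5
      have h2 := hxm.1
      rw [mem_closedBall_zero_iff] at h2 ⊢
      have h3 := norm_sub_norm_le y x
      linarith
    have hdisj : Pairwise (Function.onFun Disjoint fun Φ : I => openSimplex Φ.1) := by
      intro Φ Ψ h
      exact h5b _ _ Φ.2.1 Ψ.2.1 (fun h' => h (Subtype.ext h'))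
    have hterm : ∀ Φ : I, ∫⁻ x in openSimplex Φ.1, ‖fderiv ℝ (G ∘ s) x‖ₑ ^ 2 ≤
        (A * (5 * 2 ^ 20)) * volume (openSimplex Φ.1) + η Φ.1 := by
      rintro ⟨Φ, hΦ⟩
      have hk : ∀ k : Fin 6, (Φ k).carrier ⊆ closedBall 0 R := fun k =>
        (hΦ.1.2 k 5 (Fin.le_last k)).trans hΦ.2
      have h1 := hprop Φ hΦ (fun k => ε (Φ k)) (fun k => ⟨hεpos _, eps_le_one he _⟩)
        (eps_eq_one_of_dim (by rw [(hΦ.1.1 0).2]; simp))
        (eps_eq_one_of_dim (by rw [(hΦ.1.1 1).2]; simp))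
        (eps_eq_one_of_dim (by rw [(hΦ.1.1 2).2]; simp))
        (eps_le he hΦ.1 (by rw [(hΦ.1.1 3).2]; decide) (hk 3))
        (eps_le he hΦ.1 (by rw [(hΦ.1.1 4).2]; decide) (hk 4))
        (eps_le he hΦ.1 (by rw [(hΦ.1.1 5).2]; decide) (hk 5)) s
        (fun x hx => by rw [hs, (h5a Φ hΦ.1).2.2.2.2.2 ε hεpos x hx])
      refine h1.trans (add_le_add_left ?_ _)
      have h2 := (hTan (Φ 2) (hgood2 Φ hΦ)).2
      have h3 := (h5a Φ hΦ.1).2.2.2.2.1
      calc (A : ℝ≥0∞) * ∫⁻ y in (Φ 2).thick, M ((Φ 2).proj y) ^ 2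
          ≤ A * (5 * volume (Φ 2).thick) := by gcongr
        _ ≤ A * (5 * (2 ^ 20 * volume (openSimplex Φ))) := by gcongr
        _ = (A * (5 * 2 ^ 20)) * volume (openSimplex Φ) := by ring
    have hsub : (⋃ Φ : I, openSimplex Φ.1) ⊆ closedBall 0 R :=
      iUnion_subset fun Φ => ((h5a Φ.1 Φ.2.1).2.1).trans Φ.2.2
    calc ∫⁻ x in closedBall 0 (R - 1) \ C, ‖fderiv ℝ (G ∘ s) x‖ₑ ^ 2
        ≤ ∫⁻ x in ⋃ Φ : I, openSimplex Φ.1, ‖fderiv ℝ (G ∘ s) x‖ₑ ^ 2 :=
          lintegral_mono_set' hcov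
      _ ≤ ∑' Φ : I, ∫⁻ x in openSimplex Φ.1, ‖fderiv ℝ (G ∘ s) x‖ₑ ^ 2 :=
          lintegral_iUnion_le _ _
      _ ≤ ∑' Φ : I, ((A * (5 * 2 ^ 20)) * volume (openSimplex Φ.1) + η Φ.1) :=
          ENNReal.tsum_le_tsum hterm
      _ = (A * (5 * 2 ^ 20)) * ∑' Φ : I, volume (openSimplex Φ.1) + ∑' Φ : I, η Φ.1 := by
          rw [ENNReal.tsum_add, ENNReal.tsum_mul_left]
      _ < ⊤ := by
          rw [← measure_iUnion hdisj (fun Φ => (h5a Φ.1 Φ.2.1).1.measurableSet)]
          refine ENNReal.add_lt_top.2 ⟨ENNReal.mul_lt_top ?_ ?_, ?_⟩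
          · exact ENNReal.mul_lt_top ENNReal.coe_lt_top (by norm_num)
          · exact (measure_mono hsub).trans_lt measure_closedBall_lt_top
          · exact ((ENNReal.tsum_comp_le_tsum_of_injective Subtype.val_injective η).trans_lt
              hηs).trans_le le_top

end Pool.Agent.Helper51Sob
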